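import Mathlib
import Pool.Agent.H15.TEmb5

namespace Pool.Agent.Results.MP_160dec_gt.Metrizable
open Pool.Agent.H15.TEmb Topology

/-- `X` is t-extral: it is t-embedded in every Tychonoff space containing it as a closed
subspace. -/
def TExtral (X : Type) [TopologicalSpace X] : Prop :=
  ∀ (Y : Type) [TopologicalSpace Y] [T35Space Y] (j : X → Y), IsClosedEmbedding j → TEmb j

/-- `X` is t-extendial: each closed subspace of `X` is t-embedded in `X`. -/
def TExtendial (X : Type) [TopologicalSpace X] : Prop :=
  ∀ Y : Set X, IsClosed Y → TEmb (Subtype.val : Y → X)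

/-- Every Tychonoff space that is t-extral and t-extendial is (compact and) metrizable. -/
theorem result (X : Type) [TopologicalSpace X] [T35Space X] (h1 : TExtral X) (h2 : TExtendial X) :
    CompactSpace X ∧ TopologicalSpace.MetrizableSpace X := by
  have := compact_of_extral h1
  exact ⟨this, metrizable_of_hered _ (cube_emb X).continuous (h1 _ _ (cube_emb X)) h2⟩

end Pool.Agent.Results.MP_160dec_gt.Metrizable
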